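import Mathlib
import Pool.Agent.N576.MX2.E
import Pool.Agent.N576.MK.A8
import Pool.Agent.N576.MK.B1

set_option autoImplicit false

/-!
# MX2/CLSX (helper373, project MX2 of helper576): the exceptional words form a class
-/

namespace Pool.Agent.N373.MX2

open Pool.Agent.H499R2 Pool.Agent.TH880.MK Pool.Agent.N576.MK

noncomputable section

open scoped Classical in
/-- the elements of `X` between `i` and `P` -/
def onP (X : Finset (List Bool)) (i P : List Bool) : Finset (List Bool) :=
  X.filter (fun l => i <+: l ∧ l <+: P)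

open scoped Classical in
/-- the positions between `i` and `P` where an element of `X` branches off -/
def offP (X : Finset (List Bool)) (i P : List Bool) : Finset ℕ :=
  (Finset.Ico i.length P.length).filter
    (fun m => ∃ d, ∃ l ∈ X, P.take m ++ [d] <+: l ∧ P.take m ++ [!d] <+: P)

lemma on_step (X : Finset (List Bool)) {i P : List Bool} {b : Bool} (h : i ++ [b] <+: P) :
    (if i ∈ X then 1 else 0) + (onP X (i ++ [b]) P).card ≤ (onP X i P).card := by
  classical
  have hiP : i <+: P := (List.prefix_append i [b]).trans h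
  have hsub : onP X (i ++ [b]) P ⊆ onP X i P := by
    intro l hl
    unfold onP at hl ⊢
    rw [Finset.mem_filter] at hl ⊢
    exact ⟨hl.1, (List.prefix_append i [b]).trans hl.2.1, hl.2.2⟩
  by_cases hi : i ∈ X
  · rw [if_pos hi]
    have hni : i ∉ onP X (i ++ [b]) P := by
      intro h1
      unfold onP at h1
      rw [Finset.mem_filter] at h1
      have := h1.2.1.length_le
      simp at this
    have h2 : insert i (onP X (i ++ [b]) P) ⊆ onP X i P := by
      intro l hl
      rcases Finset.mem_insert.mp hl with rfl | hl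
      · unfold onP
        rw [Finset.mem_filter]
        exact ⟨hi, List.prefix_refl _, hiP⟩
      · exact hsub hl
    have h3 := Finset.card_le_card h2
    rw [Finset.card_insert_of_notMem hni] at h3
    omega
  · rw [if_neg hi, zero_add]
    exact Finset.card_le_card hsub

lemma off_step (X : Finset (List Bool)) {i P : List Bool} {b : Bool} (h : i ++ [b] <+: P)
    (h1 : cnt X (i ++ [!b]) ≤ 1) :
    cnt X (i ++ [!b]) + (offP X (i ++ [b]) P).card ≤ (offP X i P).card := by
  classical
  have hiP : i <+: P := (List.prefix_append i [b]).trans h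
  have hlen : i.length + 1 ≤ P.length := by
    have := h.length_le
    simpa using this
  have hsub : offP X (i ++ [b]) P ⊆ offP X i P := by
    intro m hm
    unfold offP at hm ⊢
    rw [Finset.mem_filter, Finset.mem_Ico] at hm ⊢
    refine ⟨⟨?_, hm.1.2⟩, hm.2⟩
    have := hm.1.1
    rw [List.length_append] at this
    omega
  by_cases hc : cnt X (i ++ [!b]) = 0
  · rw [hc, zero_add]
    exact Finset.card_le_card hsub
  · have hc1 : cnt X (i ++ [!b]) = 1 := by omega
    rw [hc1]
    have hni : i.length ∉ offP X (i ++ [b]) P := by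
      intro h2
      unfold offP at h2
      rw [Finset.mem_filter, Finset.mem_Ico, List.length_append] at h2
      have := h2.1.1
      simp at this
    obtain ⟨l, hl⟩ : ∃ l, l ∈ X.filter (fun l => i ++ [!b] <+: l) := by
      have h3 : 0 < (X.filter (fun l => i ++ [!b] <+: l)).card := by
        have : cnt X (i ++ [!b]) = (X.filter (fun l => i ++ [!b] <+: l)).card := by
          unfold cnt
          congr
        omega
      exact Finset.card_pos.mp h3
    rw [Finset.mem_filter] at hl
    have htake : P.take i.length = i := (List.prefix_iff_eq_take.mp hiP).symm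
    have h2 : insert i.length (offP X (i ++ [b]) P) ⊆ offP X i P := by
      intro m hm
      rcases Finset.mem_insert.mp hm with rfl | hm
      · unfold offP
        rw [Finset.mem_filter, Finset.mem_Ico]
        refine ⟨⟨le_rfl, by omega⟩, !b, l, hl.1, ?_, ?_⟩
        · rw [htake]; exact hl.2
        · rw [htake, Bool.not_not]; exact h
      · exact hsub hm
    have h3 := Finset.card_le_card h2
    rw [Finset.card_insert_of_notMem hni] at h3
    omega

lemma on_self (X : Finset (List Bool)) (i : List Bool) :
    (if i ∈ X then 1 else 0) ≤ (onP X i i).card := by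
  classical
  by_cases hi : i ∈ X
  · rw [if_pos hi]
    refine Finset.card_pos.mpr ⟨i, ?_⟩
    unfold onP
    rw [Finset.mem_filter]
    exact ⟨hi, List.prefix_refl _, List.prefix_refl _⟩
  · rw [if_neg hi]; exact Nat.zero_le _

/-- **The walk.** -/
lemma walk (X : Finset (List Bool)) (n0 : ℕ) (hX : ∀ l ∈ X, l.length ≤ n0) (n : ℕ) :
    ∀ i : List Bool, n0 < i.length + n → ∃ (P : List Bool) (R : ℕ), i <+: P ∧
      cnt X i ≤ (onP X i P).card + (offP X i P).card + R ∧
      (R = 0 ∨ (BrF X P ∧ R = cnt X (P ++ [true]) + cnt X (P ++ [false]))) := by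
  induction n with
  | zero =>
    intro i hi
    refine ⟨i, 0, List.prefix_refl _, ?_, Or.inl rfl⟩
    rw [cnt_zero_of_len hX (by omega)]
    exact Nat.zero_le _
  | succ n ih =>
    intro i hi
    have hrec := cnt_rec X i
    by_cases hbr : BrF X i
    · refine ⟨i, cnt X (i ++ [true]) + cnt X (i ++ [false]), List.prefix_refl _, ?_,
        Or.inr ⟨hbr, rfl⟩⟩
      have := on_self X i
      omega
    · obtain ⟨b, hb1, hb2⟩ : ∃ b : Bool, cnt X (i ++ [!b]) ≤ 1 ∧
          cnt X i = (if i ∈ X then 1 else 0) + cnt X (i ++ [!b]) + cnt X (i ++ [b]) := by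
        by_cases ht : 2 ≤ cnt X (i ++ [true])
        · have hf : ¬ 2 ≤ cnt X (i ++ [false]) := fun h3 => hbr ⟨ht, h3⟩
          refine ⟨true, ?_, ?_⟩
          · show cnt X (i ++ [false]) ≤ 1
            omega
          · show cnt X i = (if i ∈ X then 1 else 0) + cnt X (i ++ [false]) + cnt X (i ++ [true])
            omega
        · refine ⟨false, ?_, ?_⟩
          · show cnt X (i ++ [true]) ≤ 1
            omega
          · show cnt X i = (if i ∈ X then 1 else 0) + cnt X (i ++ [true]) + cnt X (i ++ [false])
            exact hrec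
      obtain ⟨P, R, h1, h2, h3⟩ := ih (i ++ [b]) (by rw [List.length_append]; simp; omega)
      refine ⟨P, R, (List.prefix_append i [b]).trans h1, ?_, h3⟩
      have h4 := on_step X h1
      have h5 := off_step X h1 hb1
      omega

lemma cnt_mono (X : Finset (List Bool)) {i j : List Bool} (h : i <+: j) : cnt X j ≤ cnt X i := by
  unfold cnt
  apply Finset.card_le_card
  intro l hl
  rw [Finset.mem_filter] at hl ⊢
  exact ⟨hl.1, h.trans hl.2⟩

/-- the induction -/
lemma comb_ind (X : Finset (List Bool)) (n0 : ℕ) (hX : ∀ l ∈ X, l.length ≤ n0) {L B : ℝ} (hL0 : 0 ≤ L)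
    (hB0 : 0 ≤ B) (hL : ∀ i P, ((onP X i P).card : ℝ) ≤ L) (hB : ∀ i P, ((offP X i P).card : ℝ) ≤ B) (n : ℕ) :
    ∀ i : List Bool, n0 < i.length + n → (cnt X i : ℝ) ≤ (L + B + 1) * (2 * cnt (Bst X) i + 1) := by
  induction n with
  | zero =>
    intro i hi
    rw [cnt_zero_of_len hX (by omega)]
    have : (0 : ℝ) ≤ cnt (Bst X) i := Nat.cast_nonneg _
    push_cast
    positivity
  | succ n ih =>
    intro i hi
    obtain ⟨P, R, h1, h2, h3⟩ := walk X n0 hX (n + 1) i hi
    have h4 : (cnt X i : ℝ) ≤ (onP X i P).card + (offP X i P).card + R := by exact_mod_cast h2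
    have h5 := hL i P
    have h6 := hB i P
    have hlen := h1.length_le
    rcases h3 with rfl | ⟨hbr, rfl⟩
    · have h7 : (0 : ℝ) ≤ cnt (Bst X) i := Nat.cast_nonneg _
      push_cast at h4
      have h8 : 0 ≤ (L + B + 1) * (2 * (cnt (Bst X) i : ℝ)) := by positivity
      linarith
    · have i1 := ih (P ++ [true]) (by rw [List.length_append]; simp; omega)
      have i2 := ih (P ++ [false]) (by rw [List.length_append]; simp; omega)
      have hrecB := cnt_rec (Bst X) P
      rw [if_pos (mem_Bst hbr)] at hrecB
      have h7 := cnt_mono (Bst X) h1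
      have h8 : (1 : ℝ) + cnt (Bst X) (P ++ [true]) + cnt (Bst X) (P ++ [false]) ≤ cnt (Bst X) i := by
        have : 1 + cnt (Bst X) (P ++ [true]) + cnt (Bst X) (P ++ [false]) ≤ cnt (Bst X) i := by omega
        exact_mod_cast this
      push_cast at h4
      have h9 := mul_le_mul_of_nonneg_left h8 (show (0 : ℝ) ≤ 2 * (L + B + 1) by positivity)
      linarith

theorem main : Pool.Agent.N576.MX2.CLSX := by
  classical
  intro H S0 L B hH hL hB1 hpath
  have hL0 : 0 ≤ L := by
    have := hL ∅ (by simp) (by simp)
    simpa using this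
  have hB0 : 0 ≤ B := by linarith
  refine ⟨fun _ => by positivity, fun k X hX => ?_, fun P hP A hA => ?_⟩
  · have hon : ∀ i P, ((onP X i P).card : ℝ) ≤ L := by
      intro i P
      apply hL
      · intro l hl
        unfold onP at hl
        rw [Finset.mem_filter] at hl
        exact ⟨(hX l hl.1).2.1, (hX l hl.1).2.2.1⟩
      · intro l hl l' hl'
        unfold onP at hl hl'
        rw [Finset.mem_filter] at hl hl'
        exact List.prefix_or_prefix_of_prefix hl.2.2 hl'.2.2
    have hoff : ∀ i P, ((offP X i P).card : ℝ) ≤ B := by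
      intro i P
      apply hpath P
      intro m hm
      unfold offP at hm
      rw [Finset.mem_filter] at hm
      obtain ⟨d, l, hl, h1, h2⟩ := hm.2
      obtain ⟨-, ⟨φ, h3, h4⟩, h5, -⟩ := hX l hl
      have h6 := sz_of_FF h4
      exact ⟨d, l, φ, h1, h2, by omega, by omega, h3, h4⟩
    obtain ⟨n0, hn0⟩ : ∃ n0 : ℕ, ∀ l ∈ X, l.length ≤ n0 :=
      ⟨X.sup List.length, fun l hl => Finset.le_sup (f := List.length) hl⟩
    have h1 := comb_ind X n0 hn0 hL0 hB0 hon hoff (n0 + 1) k (by omega)
    have h2 : cnt X k = X.card := by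
      unfold cnt
      rw [Finset.filter_true_of_mem (fun l hl => (hX l hl).2.2.2)]
    rw [h2, cnt_eq] at h1
    refine h1.trans ?_
    have h4 : (0 : ℝ) ≤ ((Bst X).filter (fun i => k <+: i)).card := Nat.cast_nonneg _
    have h5 : 0 ≤ L + B + 1 := by linarith
    nlinarith [mul_nonneg h5 h4]
  · rw [Finset.sum_const, nsmul_eq_mul]
    have hcard : (A.card : ℝ) ≤ B := by
      have hinj : Set.InjOn (fun k : List Bool => k.length - 1) (A : Set (List Bool)) := by
        intro k hk k' hk' he
        have h1 := (hA k hk).1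
        have h2 := (hA k' hk').1
        apply Hg_len h1 h2
        obtain ⟨R, b, rfl, -⟩ := h1
        obtain ⟨R', b', rfl, -⟩ := h2
        simp only [List.length_append, List.length_singleton] at he ⊢
        omega
      rw [← Finset.card_image_of_injOn hinj]
      apply hpath P
      intro m hm
      obtain ⟨k, hk, rfl⟩ := Finset.mem_image.mp hm
      obtain ⟨⟨R, b, rfl, h2⟩, l, ⟨⟨φ, h3, h4⟩, h5⟩, h6⟩ := hA k hk
      have hR : P.take R.length = R :=
        (List.prefix_iff_eq_take.mp ((List.prefix_append R [!b]).trans h2)).symm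
      have e1 : (R ++ [b]).length - 1 = R.length := by simp
      have h7 := sz_of_FF h4
      simp only [e1]
      rw [hR]
      exact ⟨b, l, φ, h6, h2, by omega, by omega, h3, h4⟩
    calc (A.card : ℝ) * (4 * (L + B + 1)) ≤ B * (4 * (L + B + 1)) :=
          mul_le_mul_of_nonneg_right hcard (by positivity)
      _ = _ := by ring

end

end Pool.Agent.N373.MX2
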